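import Pool.Agent.L5helper33.FolkFinal2

set_option autoImplicit false

namespace Pool.Agent.Results.MP_eb1b1c_co.ExplicitFolkman

open Finset

/-- The complement of the disjoint union of the paths `P_2` (edge `01`) and `P_3`
(edges `23`, `34`). -/
def H0 : SimpleGraph (Fin 5) := (SimpleGraph.fromEdgeSet {s(0, 1), s(2, 3), s(3, 4)})ᶜ

open Classical in
/-- The ordered triples of vertices that span a triangle of `G`. -/
noncomputable def triangles {n : ℕ} (G : SimpleGraph (Fin n)) :
    Finset (Fin n × Fin n × Fin n) :=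
  univ.filter fun p => G.Adj p.1 p.2.1 ∧ G.Adj p.2.1 p.2.2 ∧ G.Adj p.1 p.2.2

/-- The ordered triples of vertices that span a triangle of `G` whose three edges get the same
colour from `c`. -/
noncomputable def monoTriangles {n : ℕ} (G : SimpleGraph (Fin n)) (c : Sym2 (Fin n) → Bool) :
    Finset (Fin n × Fin n × Fin n) :=
  (triangles G).filter fun p =>
    c s(p.1, p.2.1) = c s(p.2.1, p.2.2) ∧ c s(p.2.1, p.2.2) = c s(p.1, p.2.2)

/-- There is an `H0`-free graph with at most `10 ^ 2040` vertices such that every 2-colouring of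
its edges makes at least one hundredth of its triangles monochromatic. -/
theorem result : ∃ n : ℕ, n ≤ 10 ^ 2040 ∧ ∃ G : SimpleGraph (Fin n), H0.Free G ∧
    (triangles G).Nonempty ∧
    ∀ c : Sym2 (Fin n) → Bool, (triangles G).card ≤ 100 * (monoTriangles G c).card := by
  classical
  obtain ⟨W, iW, G, hcard, h1, h2⟩ := Pool.Agent.L5helper33.Folk.exists_graph2
  let σ := Fintype.equivFin W
  let G' : SimpleGraph (Fin (Fintype.card W)) := G.comap σ.symm
  have adj : ∀ a b, G'.Adj a b ↔ G.Adj (σ.symm a) (σ.symm b) := fun a b => Iff.rfl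
  have ct : ((triangles G').card : ℝ) = ∑ p : W, ∑ q : W, ∑ r : W,
      (if Pool.Agent.L5helper33.Folk.TT G p q r then (1 : ℝ) else 0) := by
    unfold triangles
    rw [card_filter]
    push_cast
    rw [Fintype.sum_prod_type, ← Equiv.sum_comp σ.symm]
    refine sum_congr rfl fun a _ => ?_
    rw [Fintype.sum_prod_type, ← Equiv.sum_comp σ.symm]
    refine sum_congr rfl fun b _ => ?_
    rw [← Equiv.sum_comp σ.symm]
    refine sum_congr rfl fun d _ => ?_
    simp only [adj, Pool.Agent.L5helper33.Folk.TT]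
    congr
  have cm : ∀ c : Sym2 (Fin (Fintype.card W)) → Bool,
      ((monoTriangles G' c).card : ℝ) = ∑ p : W, ∑ q : W, ∑ r : W,
      (if Pool.Agent.L5helper33.Folk.MT G (fun z => c (z.map σ)) p q r then (1 : ℝ) else 0) := by
    intro c
    unfold monoTriangles triangles
    rw [filter_filter, card_filter]
    push_cast
    rw [Fintype.sum_prod_type, ← Equiv.sum_comp σ.symm]
    refine sum_congr rfl fun a _ => ?_
    rw [Fintype.sum_prod_type, ← Equiv.sum_comp σ.symm]
    refine sum_congr rfl fun b _ => ?_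
    rw [← Equiv.sum_comp σ.symm]
    refine sum_congr rfl fun d _ => ?_
    simp only [adj, Pool.Agent.L5helper33.Folk.MT, Sym2.map_mk, Equiv.apply_symm_apply,
      and_assoc]
  refine ⟨Fintype.card W, hcard, G', ?_, ?_, ?_⟩
  · rintro ⟨f⟩
    have ad : ∀ i j : Fin 5, H0.Adj i j → G.Adj (σ.symm (f i)) (σ.symm (f j)) :=
      fun i j h => f.toHom.map_adj h
    have ne : ∀ i j : Fin 5, i ≠ j → σ.symm (f i) ≠ σ.symm (f j) := by
      intro i j hij h
      exact hij (f.injective (σ.symm.injective h))
    refine h2 (σ.symm (f 0)) (σ.symm (f 1)) (σ.symm (f 2)) (σ.symm (f 4)) (σ.symm (f 3))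
      (ne _ _ (by decide)) (ne _ _ (by decide)) (ne _ _ (by decide))
      (ad _ _ ?_) (ad _ _ ?_) (ad _ _ ?_) (ad _ _ ?_) (ad _ _ ?_) (ad _ _ ?_) (ad _ _ ?_) <;>
    simp [H0, SimpleGraph.compl_adj, SimpleGraph.fromEdgeSet_adj]
  · have := (h1 (fun _ => true)).1
    rw [← ct] at this
    exact card_pos.mp (by exact_mod_cast this)
  · intro c
    have := (h1 (fun z => c (z.map σ))).2
    rw [← ct, ← cm] at this
    exact_mod_cast this

end Pool.Agent.Results.MP_eb1b1c_co.ExplicitFolkman
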